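import Pool.Agent.MP_7a7339_al.Coprime

set_option autoImplicit false

namespace Pool.Agent.Results.MP_7a7339_al.CentrePrimes

/-- If the non-commuting graphs of the finite nonabelian groups `G` and `H` are isomorphic and `H`
is nilpotent, then every prime divisor of `|H : Z(H)|` divides `|Z(G)|`; in particular `G` has
nontrivial centre. -/
theorem result :
    ∀ (G H : Type*) [Group G] [Group H] [Finite G] [Finite H],
      (∃ a b : G, a * b ≠ b * a) →
      (∃ a b : H, a * b ≠ b * a) →
      Nonempty (SimpleGraph.Iso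
        (SimpleGraph.fromRel
          (fun x y : {g : G // g ∉ Subgroup.center G} => x.1 * y.1 ≠ y.1 * x.1))
        (SimpleGraph.fromRel
          (fun x y : {h : H // h ∉ Subgroup.center H} => x.1 * y.1 ≠ y.1 * x.1))) →
      Group.IsNilpotent H →
      ∀ p : ℕ, p.Prime → p ∣ (Subgroup.center H).index → p ∣ Nat.card (Subgroup.center G) := by
  intro G H _ _ _ _ _ hH hf hnil p hp hdvd
  obtain ⟨f⟩ := hf
  obtain ⟨E⟩ := Pool.Agent.MP_7a7339_al.exists_commEquiv f
  have : Group.IsNilpotent H := hnil
  exact Pool.Agent.MP_7a7339_al.dvd_card_center_of_dvd_index E hH hp hdvd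

end Pool.Agent.Results.MP_7a7339_al.CentrePrimes
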